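import Pool.Agent.Q283.EN.Stm2
import Pool.Agent.Q285.CE.ECOND

/-!
# Project EN of helper283, job QCX: the condition outside `2` for the quartic twists
-/

set_option autoImplicit false

namespace Pool.Agent.Q193.EN

open NumberField IsDedekindDomain Pool.Agent.Q7.LK Pool.Agent.Q283.EN Pool.Agent.Q285.LK Pool.Agent.Y682
open Pool.Agent.Q285.CE (max_twice)

section

variable {F : Type} [Field F] [NumberField F] (v : HeightOneSpectrum (𝓞 F))

/-- the logarithm of the valuation -/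
noncomputable def lg (x : v.adicCompletion F) : ℤ := WithZero.log (vv v x)

theorem lg_mul {x y : v.adicCompletion F} (hx : x ≠ 0) (hy : y ≠ 0) : lg v (x * y) = lg v x + lg v y := by
  unfold lg
  rw [map_mul, WithZero.log_mul ((Valuation.ne_zero_iff _).2 hx) ((Valuation.ne_zero_iff _).2 hy)]

theorem lg_pow (x : v.adicCompletion F) (n : ℕ) : lg v (x ^ n) = n * lg v x := by
  unfold lg
  rw [map_pow, WithZero.log_pow, nsmul_eq_mul]

theorem lg_neg (x : v.adicCompletion F) : lg v (-x) = lg v x := by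
  unfold lg
  rw [Valuation.map_neg]

theorem lg_coe (a : F) : lg v (algebraMap F (v.adicCompletion F) a) = WithZero.log (v.valuation F a) := by
  unfold lg
  rw [vv_coe]

variable {v}

theorem vl_iff (a : F) : vl 2 v a = 0 ↔ ∃ m : ℤ, WithZero.log (v.valuation F a) = 2 * m := by
  unfold vl
  rw [neg_eq_zero, ZMod.intCast_zmod_eq_zero_iff_dvd]
  constructor
  · rintro ⟨m, hm⟩
    exact ⟨m, by exact_mod_cast hm⟩
  · rintro ⟨m, hm⟩
    exact ⟨m, by exact_mod_cast hm⟩

theorem vv_two (hv : ¬ Dp 2 v) : vv v (((2 : ℕ) : v.adicCompletion F) ^ 2) = 1 := by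
  have e : ((2 : ℕ) : v.adicCompletion F) = algebraMap F _ (algebraMap (𝓞 F) F ((2 : ℕ) : 𝓞 F)) := by
    rw [map_natCast, map_natCast]
  rw [e, map_pow, vv_coe, (HeightOneSpectrum.valuation_eq_one_iff_notMem v).2 hv, one_pow]

/-- small perturbations -/
theorem sq_of_lt (hv : ¬ Dp 2 v) {y z : v.adicCompletion F} (hy : y ≠ 0) (h : vv v z < vv v y) :
    ∃ c : v.adicCompletion F, y + z = y * c ^ 2 := by
  have h1 : vv v (z / y) < 1 := by
    rw [map_div₀]
    exact (div_lt_one₀ (zero_lt_iff.2 ((Valuation.ne_zero_iff _).2 hy))).2 h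
  obtain ⟨c, hc⟩ := exists_proot v (p := 2) le_rfl (z / y) (by rw [vv_two hv]; exact h1)
  refine ⟨c, ?_⟩
  rw [hc, mul_add, mul_one, mul_div_cancel₀ z hy]

/-- the analysis of the valuations -/
theorem analysis (hv : ¬ Dp 2 v) {a D u w s : v.adicCompletion F} (ha : a ≠ 0) (hD : D ≠ 0)
    (h0 : u ≠ 0 ∨ w ≠ 0 ∨ s ≠ 0) (h : a * w ^ 2 = a ^ 2 * u ^ 4 + D * s ^ 4) :
    ((∃ m, lg v D = 4 * m) → ∃ m, lg v a = 2 * m) ∧
    ((¬ ∃ m, lg v D = 2 * m) → (∃ x, a = x ^ 2) ∨ ∃ x, a * D = x ^ 2) := by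
  have h2 : (2 : ℕ) ≠ 0 := by norm_num
  have h4 : (4 : ℕ) ≠ 0 := by norm_num
  have nz : ∀ {x : v.adicCompletion F}, vv v x = 0 → x = 0 := fun h1 => (Valuation.zero_iff _).1 h1
  have hx : vv v (a * w ^ 2) = 0 → w = 0 := fun h1 =>
    (pow_eq_zero_iff h2).1 ((mul_eq_zero.1 (nz h1)).resolve_left ha)
  have hy : vv v (-(a ^ 2 * u ^ 4)) = 0 → u = 0 := fun h1 => by
    rw [Valuation.map_neg] at h1
    exact (pow_eq_zero_iff h4).1 ((mul_eq_zero.1 (nz h1)).resolve_left (pow_ne_zero 2 ha))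
  have hz : vv v (-(D * s ^ 4)) = 0 → s = 0 := fun h1 => by
    rw [Valuation.map_neg] at h1
    exact (pow_eq_zero_iff h4).1 ((mul_eq_zero.1 (nz h1)).resolve_left hD)
  have rx : w ≠ 0 → lg v (a * w ^ 2) = lg v a + 2 * lg v w := fun hw => by
    rw [lg_mul v ha (pow_ne_zero 2 hw), lg_pow]
    push_cast
    ring
  have ry : u ≠ 0 → lg v (-(a ^ 2 * u ^ 4)) = 2 * lg v a + 4 * lg v u := fun hu => by
    rw [lg_neg, lg_mul v (pow_ne_zero 2 ha) (pow_ne_zero 4 hu), lg_pow, lg_pow]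
    push_cast
    ring
  have rz : s ≠ 0 → lg v (-(D * s ^ 4)) = lg v D + 4 * lg v s := fun hs => by
    rw [lg_neg, lg_mul v hD (pow_ne_zero 4 hs), lg_pow]
    push_cast
    ring
  have req : ∀ {x y : v.adicCompletion F}, vv v x = vv v y → lg v x = lg v y := fun h1 => by
    unfold lg
    rw [h1]
  rcases max_twice (vv v) (x := a * w ^ 2) (y := -(a ^ 2 * u ^ 4)) (z := -(D * s ^ 4))
    (by rw [h]; ring) with ⟨h1, h3⟩ | ⟨h1, h3⟩ | ⟨h1, h3⟩
  · have hw : w ≠ 0 := by
      intro hw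
      have e0 : vv v (a * w ^ 2) = 0 := by rw [hw, zero_pow h2, mul_zero, map_zero]
      have hu := hy (h1.symm.trans e0)
      have hs := hz (le_zero_iff.1 (h3.trans e0.le))
      rcases h0 with h | h | h
      · exact h hu
      · exact h hw
      · exact h hs
    have hu : u ≠ 0 := by
      rintro rfl
      apply hw
      apply hx
      rw [h1, zero_pow h4, mul_zero, neg_zero, map_zero]
    have hA : lg v a + 2 * lg v w = 2 * lg v a + 4 * lg v u := by
      rw [← rx hw, ← ry hu]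
      exact req h1
    refine ⟨fun _ => ⟨lg v w - 2 * lg v u, by omega⟩, fun hD0 => Or.inl ?_⟩
    have hlt : vv v (D * s ^ 4) < vv v (a ^ 2 * u ^ 4) := by
      rw [← Valuation.map_neg (vv v) (D * s ^ 4), ← Valuation.map_neg (vv v) (a ^ 2 * u ^ 4), ← h1]
      refine lt_of_le_of_ne h3 fun h5 => hD0 ?_
      have hs : s ≠ 0 := by
        rintro rfl
        apply hw
        apply hx
        rw [← h5, zero_pow h4, mul_zero, neg_zero, map_zero]
      have h6 := req h5
      rw [rx hw, rz hs] at h6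
      exact ⟨lg v a + 2 * lg v u - 2 * lg v s, by omega⟩
    obtain ⟨c, hc⟩ := sq_of_lt hv (mul_ne_zero (pow_ne_zero 2 ha) (pow_ne_zero 4 hu)) hlt
    rw [← h] at hc
    refine ⟨a * u ^ 2 * c / w, ?_⟩
    rw [div_pow, eq_div_iff (pow_ne_zero 2 hw)]
    linear_combination hc
  · have hw : w ≠ 0 := by
      intro hw
      have e0 : vv v (a * w ^ 2) = 0 := by rw [hw, zero_pow h2, mul_zero, map_zero]
      have hs := hz (h1.symm.trans e0)
      have hu := hy (le_zero_iff.1 (h3.trans e0.le))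
      rcases h0 with h | h | h
      · exact h hu
      · exact h hw
      · exact h hs
    have hs : s ≠ 0 := by
      rintro rfl
      apply hw
      apply hx
      rw [h1, zero_pow h4, mul_zero, neg_zero, map_zero]
    have hA : lg v a + 2 * lg v w = lg v D + 4 * lg v s := by
      rw [← rx hw, ← rz hs]
      exact req h1
    refine ⟨fun ⟨m, hm⟩ => ⟨2 * m + 2 * lg v s - lg v w, by omega⟩, fun hD0 => Or.inr ?_⟩
    have hlt : vv v (a ^ 2 * u ^ 4) < vv v (D * s ^ 4) := by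
      rw [← Valuation.map_neg (vv v) (D * s ^ 4), ← Valuation.map_neg (vv v) (a ^ 2 * u ^ 4), ← h1]
      refine lt_of_le_of_ne h3 fun h5 => hD0 ?_
      have hu : u ≠ 0 := by
        rintro rfl
        apply hw
        apply hx
        rw [← h5, zero_pow h4, mul_zero, neg_zero, map_zero]
      have h6 := req h5
      rw [rx hw, ry hu] at h6
      exact ⟨lg v a + 2 * lg v u - 2 * lg v s, by omega⟩
    obtain ⟨c, hc⟩ := sq_of_lt hv (mul_ne_zero hD (pow_ne_zero 4 hs)) hlt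
    rw [add_comm, ← h] at hc
    refine ⟨D * s ^ 2 * c / w, ?_⟩
    rw [div_pow, eq_div_iff (pow_ne_zero 2 hw)]
    linear_combination D * hc
  · have hu : u ≠ 0 := by
      intro hu
      have e0 : vv v (-(a ^ 2 * u ^ 4)) = 0 := by rw [hu, zero_pow h4, mul_zero, neg_zero, map_zero]
      have hs := hz (h1.symm.trans e0)
      have hw := hx (le_zero_iff.1 (h3.trans e0.le))
      rcases h0 with h | h | h
      · exact h hu
      · exact h hw
      · exact h hs
    have hs : s ≠ 0 := by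
      rintro rfl
      apply hu
      apply hy
      rw [h1, zero_pow h4, mul_zero, neg_zero, map_zero]
    have hA : 2 * lg v a + 4 * lg v u = lg v D + 4 * lg v s := by
      rw [← ry hu, ← rz hs]
      exact req h1
    refine ⟨fun ⟨m, hm⟩ => ⟨m + lg v s - lg v u, by omega⟩, fun hD0 => ?_⟩
    exact absurd ⟨lg v a + 2 * lg v u - 2 * lg v s, by omega⟩ hD0

end

theorem qcx (hBAS : S_BAS) (hCPL : S_CPL) (hQLOC : S_QLOC) (hIDX2 : S_IDX2) : S_QCX := by
  intro F _ _ i ζ hi hζ v D a hv hD ha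
  have : Fact (Nat.Prime 2) := ⟨Nat.prime_two⟩
  obtain ⟨b1, b2, b3, b4, b5, b6, b7⟩ := hBAS 2 F v
  obtain ⟨-, b8, b9, b10⟩ := b7 hv ζ hζ
  obtain ⟨l1, l2, l3, l4, l5⟩ := hQLOC F i hi v D hD
  have fwd : ∀ b : F, AQ v D b →
      ((∃ m, lg v (algebraMap F (v.adicCompletion F) D) = 4 * m) →
        ∃ m, lg v (algebraMap F (v.adicCompletion F) b) = 2 * m) ∧
      ((¬ ∃ m, lg v (algebraMap F (v.adicCompletion F) D) = 2 * m) →
        (∃ x, algebraMap F (v.adicCompletion F) b = x ^ 2) ∨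
        ∃ x, algebraMap F (v.adicCompletion F) b * algebraMap F (v.adicCompletion F) D = x ^ 2) := by
    rintro b ⟨hb, u, w, s, h0, h1⟩
    rw [cpl_coe, cpl_coe] at h1
    exact analysis hv ((map_ne_zero (algebraMap F (v.adicCompletion F))).2 hb)
      ((map_ne_zero (algebraMap F (v.adicCompletion F))).2 hD) h0 h1
  refine ⟨fun hQ => ?_, fun hQ => ?_⟩
  · have hQ' : ∃ m, lg v (algebraMap F (v.adicCompletion F) D) = 4 * m := by
      obtain ⟨x, hx⟩ := hQ
      have hx0 : x ≠ 0 := by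
        rintro rfl
        rw [zero_pow (by norm_num), mul_zero, map_zero] at hx
        exact zero_ne_one hx
      refine ⟨-WithZero.log (v.valuation F x), ?_⟩
      rw [lg_coe]
      have h1 : WithZero.log (v.valuation F (D * x ^ 4)) = 0 := by rw [hx, WithZero.log_one]
      rw [map_mul, map_pow, WithZero.log_mul ((Valuation.ne_zero_iff _).2 hD)
        (pow_ne_zero _ ((Valuation.ne_zero_iff _).2 hx0)), WithZero.log_pow, nsmul_eq_mul] at h1
      push_cast at h1
      linarith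
    have hfw : ∀ b, AQ v D b → vl 2 v b = 0 := by
      intro b hb
      rw [vl_iff]
      obtain ⟨m, hm⟩ := (fwd b hb).1 hQ'
      exact ⟨m, by rw [← lg_coe]; exact hm⟩
    refine ⟨hfw a, fun hva => ?_⟩
    obtain ⟨B, hB1, hB2, hB3⟩ := hIDX2 F i hi v D hD
    have hdv : dv 2 v = 0 := by
      unfold dv
      rw [if_neg hv]
    rw [hdv] at hB1
    have hB4 : 1 < B.card := lt_of_lt_of_le (by norm_num) hB1
    obtain ⟨b, hb, b', hb', hbb⟩ := Finset.one_lt_card.1 hB4
    have e0 : ∀ c ∈ B, c ≠ 0 ∧ vl 2 v c = 0 := fun c hc => ⟨(hB2 c hc).1, hfw c (hB2 c hc)⟩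
    -- quotients
    have hinv : ∀ c : F, c ≠ 0 → vl 2 v c = 0 → vl 2 v c⁻¹ = 0 ∧ sy 2 ζ v c⁻¹ = - sy 2 ζ v c := by
      intro c hc hc0
      have h1 : vl 2 v (c * c⁻¹) = vl 2 v c + vl 2 v c⁻¹ := b5 c c⁻¹ hc (inv_ne_zero hc)
      rw [mul_inv_cancel₀ hc] at h1
      have hL1 : Lpw 2 v 1 := by
        have := b3 1 one_ne_zero
        rwa [one_pow] at this
      have h2 : vl 2 v (1 : F) = 0 := (b1 1 hL1).2
      have h3 : vl 2 v c⁻¹ = 0 := by
        rw [h2, hc0, zero_add] at h1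
        exact h1.symm
      refine ⟨h3, ?_⟩
      have h4 := b9 c c⁻¹ hc (inv_ne_zero hc) hc0 h3
      rw [mul_inv_cancel₀ hc, (b10 1 one_ne_zero h2).2 hL1] at h4
      linear_combination -h4
    have hdiv : ∀ c c' : F, c ≠ 0 → c' ≠ 0 → vl 2 v c = 0 → vl 2 v c' = 0 → sy 2 ζ v c = sy 2 ζ v c' →
        Lpw 2 v (c / c') := by
      intro c c' hc hc' h1 h2 h3
      obtain ⟨h4, h5⟩ := hinv c' hc' h2
      rw [div_eq_mul_inv]
      refine (b10 _ (mul_ne_zero hc (inv_ne_zero hc')) ?_).1 ?_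
      · rw [b5 c c'⁻¹ hc (inv_ne_zero hc'), h1, h4, add_zero]
      · rw [b9 c c'⁻¹ hc (inv_ne_zero hc') h1 h4, h5, h3, add_neg_cancel]
    have hne : sy 2 ζ v b ≠ sy 2 ζ v b' := fun h =>
      hB3 b hb b' hb' hbb (hdiv b b' (e0 b hb).1 (e0 b' hb').1 (e0 b hb).2 (e0 b' hb').2 h)
    have hor : ∀ x y z : ZMod 2, y ≠ z → x = y ∨ x = z := by decide
    have hfin : ∀ c ∈ B, sy 2 ζ v a = sy 2 ζ v c → AQ v D a := by
      intro c hc h
      have h1 := l1 c (a / c) (hB2 c hc) (hdiv a c ha (e0 c hc).1 hva (e0 c hc).2 h)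
      rwa [mul_div_cancel₀ a (e0 c hc).1] at h1
    rcases hor (sy 2 ζ v a) _ _ hne with h | h
    · exact hfin b hb h
    · exact hfin b' hb' h
  · have hQ' : ¬ ∃ m, lg v (algebraMap F (v.adicCompletion F) D) = 2 * m := by
      rintro ⟨m, hm⟩
      apply hQ
      rw [vl_iff]
      exact ⟨m, by rw [← lg_coe]; exact hm⟩
    refine ⟨fun hA => ?_, fun hA => ?_⟩
    · rcases (fwd a hA).2 hQ' with ⟨x, hx⟩ | ⟨x, hx⟩
      · refine ⟨0, (hCPL 2 F v _).2 ⟨mul_ne_zero ha (pow_ne_zero _ hD), x, ?_⟩⟩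
        rw [cpl_coe, pow_zero, mul_one]
        exact hx
      · refine ⟨1, (hCPL 2 F v _).2 ⟨mul_ne_zero ha (pow_ne_zero _ hD), x, ?_⟩⟩
        rw [cpl_coe, pow_one, map_mul]
        exact hx
    · obtain ⟨j, hj⟩ := hA
      have h1 : ∀ n : ℕ, AQ v D (D ^ n) := by
        intro n
        induction n with
        | zero => rw [pow_zero]; exact l5
        | succ n ih =>
          rw [pow_succ]
          exact l3 _ ih
      have h2 := l1 _ _ (h1 j) hj
      have h3 := l1 _ _ h2 (b3 ((D ^ j)⁻¹) (inv_ne_zero (pow_ne_zero _ hD)))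
      have h4 : D ^ j * (a * D ^ j) * (D ^ j)⁻¹ ^ 2 = a := by
        have := pow_ne_zero j hD
        field_simp
      rwa [h4] at h3

end Pool.Agent.Q193.EN
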