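import Pool.Agent.Q193.EN.QKA
import Pool.Agent.Q190.CE.EKUM

/-!
# Project EN of helper283, job QKUM: from cocycles with values in `{0, T}` to classes
-/

set_option autoImplicit false
set_option linter.unusedSectionVars false

namespace Pool.Agent.Q193.EN

open WeierstrassCurve NumberField IsDedekindDomain
open Pool.Agent.Q283.EN
open Pool.Agent.Q7.LK (IsPow)
open Pool.Agent.TH841.SH.D (Coch Pt act Gal IsCoc IsCob LocTriv)
open Pool.Agent.TH841.NF.D (Sha IsShaCoc)
open Pool.Agent.Q190.CE (exists_restr)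

universe u

/-- a locally constant quadratic character comes from a square root -/
theorem exists_root2 {K Ω : Type u} [Field K] [Field Ω] [Algebra K Ω] [IsGalois K Ω] (h : (Ω ≃ₐ[K] Ω) → ZMod 2)
    (hmul : ∀ σ τ, h (σ * τ) = h σ + h τ) (hc : IsLocallyConstant h) :
    ∃ (s : Ω) (a : K), s ≠ 0 ∧ s ^ 2 = algebraMap K Ω a ∧ ∀ σ, σ s = (-1) ^ (h σ).val * s := by
  have hran : ∀ s : Ω, (∀ σ : Ω ≃ₐ[K] Ω, σ s = (-1) ^ (h σ).val * s) → ∃ a : K, s ^ 2 = algebraMap K Ω a := by
    intro s hs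
    have : s ^ 2 ∈ Set.range (algebraMap K Ω) := by
      rw [InfiniteGalois.mem_range_algebraMap_iff_fixed]
      intro σ
      rw [map_pow, hs, mul_pow, ← pow_mul, mul_comm (h σ).val, pow_mul, neg_one_sq, one_pow, one_mul]
    obtain ⟨a, ha⟩ := this
    exact ⟨a, ha.symm⟩
  have hone : h 1 = 0 := by
    have := hmul 1 1
    rw [mul_one] at this
    exact left_eq_add.1 this
  have h01 : ∀ x : ZMod 2, x ≠ 0 → x = 1 := by decide
  by_cases htriv : ∀ σ, h σ = 0
  · have h1 : ∀ σ : Ω ≃ₐ[K] Ω, σ (1 : Ω) = (-1) ^ (h σ).val * 1 := fun σ => by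
      rw [htriv σ, map_one, ZMod.val_zero, pow_zero, one_mul]
    obtain ⟨a, ha⟩ := hran 1 h1
    exact ⟨1, a, one_ne_zero, ha, h1⟩
  · push Not at htriv
    obtain ⟨τ, hτ'⟩ := htriv
    have hτ : h τ = 1 := h01 _ hτ'
    have hinv : ∀ σ, h σ⁻¹ = h σ := by
      intro σ
      have h1 := hmul σ⁻¹ σ
      rw [inv_mul_cancel, hone] at h1
      have h2 : ∀ x y : ZMod 2, 0 = x + y → x = y := by decide
      exact h2 _ _ h1
    let H : Subgroup (Ω ≃ₐ[K] Ω) :=
      { carrier := {σ | h σ = 0}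
        mul_mem' := by
          intro a b ha hb
          show h (a * b) = 0
          rw [hmul, show h a = 0 from ha, show h b = 0 from hb, add_zero]
        one_mem' := hone
        inv_mem' := by
          intro a ha
          show h a⁻¹ = 0
          rw [hinv]
          exact ha }
    have hHo : IsOpen (H : Set (Ω ≃ₐ[K] Ω)) := hc.isOpen_fiber 0
    let Hc : ClosedSubgroup (Ω ≃ₐ[K] Ω) := ⟨H, H.isClosed_of_isOpen hHo⟩
    have hfx := InfiniteGalois.fixingSubgroup_fixedField Hc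
    have hτn : τ ∉ (IntermediateField.fixedField (Hc : Subgroup (Ω ≃ₐ[K] Ω))).fixingSubgroup := by
      rw [hfx]
      intro h1
      have h2 : h τ = 0 := h1
      rw [hτ] at h2
      exact one_ne_zero h2
    rw [IntermediateField.mem_fixingSubgroup_iff] at hτn
    push Not at hτn
    obtain ⟨x, hx, hx'⟩ := hτn
    have hxH : ∀ σ, h σ = 0 → σ x = x := by
      intro σ hσ
      exact hx ⟨σ, hσ⟩
    -- elements fixed by `H`
    have hH1 : ∀ σ : Ω ≃ₐ[K] Ω, h σ = 0 → σ (τ x) = τ x := by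
      intro σ hσ
      have h3 : h (τ⁻¹ * σ * τ) = 0 := by
        rw [hmul, hmul, hσ, hinv, hτ]
        decide
      have h4 := hxH _ h3
      rw [AlgEquiv.mul_apply, AlgEquiv.mul_apply] at h4
      have h5 := congrArg τ h4
      rw [← AlgEquiv.mul_apply τ τ⁻¹, mul_inv_cancel, AlgEquiv.one_apply] at h5
      exact h5
    have hτ2 : τ (τ x) = x := by
      rw [← AlgEquiv.mul_apply]
      apply hxH
      rw [hmul, hτ]
      decide
    have hs : ∀ σ : Ω ≃ₐ[K] Ω, σ (x - τ x) = (-1) ^ (h σ).val * (x - τ x) := by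
      intro σ
      by_cases hσ : h σ = 0
      · rw [hσ, ZMod.val_zero, pow_zero, one_mul, map_sub, hxH σ hσ, hH1 σ hσ]
      · have hσ1 := h01 _ hσ
        have h3 : h (σ * τ⁻¹) = 0 := by
          rw [hmul, hinv, hσ1, hτ]
          decide
        have h4 : ∀ z : Ω, σ z = (σ * τ⁻¹) (τ z) := by
          intro z
          rw [AlgEquiv.mul_apply, ← AlgEquiv.mul_apply τ⁻¹ τ, inv_mul_cancel, AlgEquiv.one_apply]
        rw [h4, map_sub, map_sub, hτ2, hH1 _ h3, hxH _ h3, hσ1, show (1 : ZMod 2).val = 1 from rfl, pow_one]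
        ring
    obtain ⟨a, ha⟩ := hran _ hs
    exact ⟨x - τ x, a, sub_ne_zero.2 (Ne.symm hx'), ha, hs⟩

theorem sq_eq {L : Type} [Field L] {x y : L} (h : x ^ 2 = y ^ 2) :
    ∃ i : ℕ, x = (-1) ^ i * y := by
  have h1 : (x - y) * (x + y) = 0 := by
    linear_combination h
  rcases mul_eq_zero.1 h1 with h2 | h2
  · exact ⟨0, by linear_combination h2⟩
  · exact ⟨1, by linear_combination h2⟩

theorem local_AQ {F : Type} [Field F] {D : F} (hD : D ≠ 0) (K : Type) [Field K] [Algebra F K] [CharZero K] [CharZero F]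
    (f : Coch (EQ D)) (h2 : (2 : AlgebraicClosure F) ≠ 0) (h : Gal F → ZMod 2) (hf : ∀ σ, f σ = tt D h2 hD (h σ))
    (hloc : LocTriv (EQ D) K f) {w : F} (hw : w ^ 2 = -1) {s : AlgebraicClosure F} {a : F} (hs0 : s ≠ 0)
    (hs2 : s ^ 2 = algebraMap F _ a) (hs : ∀ σ : Gal F, σ s = (-1) ^ (h σ).val * s) :
    ∃ u w' t : K, (u ≠ 0 ∨ w' ≠ 0 ∨ t ≠ 0) ∧
      algebraMap F K a * w' ^ 2 = (algebraMap F K a) ^ 2 * u ^ 4 + algebraMap F K D * t ^ 4 := by
  have k2 : (2 : AlgebraicClosure K) ≠ 0 := two_ne_zero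
  let ι : AlgebraicClosure F →ₐ[F] AlgebraicClosure K := IsAlgClosed.lift
  obtain ⟨P, hP⟩ := hloc ι
  set W := algebraMap F (AlgebraicClosure K) w with hWdef
  have hW : W ^ 2 = -1 := by
    rw [hWdef, ← map_pow, hw, map_neg, map_one]
  have hι0 : ι s ≠ 0 := by
    intro h0
    exact hs0 ((map_eq_zero ι).1 h0)
  have hι2 : ι s ^ 2 = algebraMap F (AlgebraicClosure K) a := by rw [← map_pow, hs2, ι.commutes]
  have key : ∀ τ : Gal K, ∃ c : ZMod 2, act (EQ D) (τ.toAlgHom.restrictScalars F) P = P + tt D k2 hD c ∧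
      τ (ι s) = (-1) ^ c.val * ι s := by
    intro τ
    obtain ⟨σ, hσ⟩ := exists_restr ι τ
    refine ⟨h σ, ?_, ?_⟩
    · have h1 := hP τ σ hσ
      rw [hf σ, act_tt ι h2 k2 hD] at h1
      rw [h1]
      abel
    · rw [hσ s, hs σ, map_mul, map_pow, map_neg, map_one]
  have htower : ∀ z : F, algebraMap F (AlgebraicClosure K) z = algebraMap K (AlgebraicClosure K) (algebraMap F K z) :=
    fun z => IsScalarTower.algebraMap_apply F K (AlgebraicClosure K) z
  have triv : (∀ τ : Gal K, act (EQ D) (τ.toAlgHom.restrictScalars F) P = P) → ∃ u w' t : K, (u ≠ 0 ∨ w' ≠ 0 ∨ t ≠ 0) ∧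
      algebraMap F K a * w' ^ 2 = (algebraMap F K a) ^ 2 * u ^ 4 + algebraMap F K D * t ^ 4 := by
    intro hfix
    have h1 : ι s ∈ Set.range (algebraMap K (AlgebraicClosure K)) := by
      rw [InfiniteGalois.mem_range_algebraMap_iff_fixed]
      intro τ
      obtain ⟨c, hc1, hc2⟩ := key τ
      rw [hfix τ] at hc1
      have hc0 : c = 0 := tt_eq_zero k2 hD c (left_eq_add.1 hc1)
      rw [hc2, hc0, ZMod.val_zero, pow_zero, one_mul]
    obtain ⟨k, hk⟩ := h1
    have hk2 : k ^ 2 = algebraMap F K a := by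
      apply (algebraMap K (AlgebraicClosure K)).injective
      rw [map_pow, hk, hι2, htower]
    refine ⟨1, k, 0, Or.inl one_ne_zero, ?_⟩
    rw [← hk2]
    ring
  rcases pt_cases k2 hD P with h0 | ⟨x, y, hxy, hPxy⟩
  · exact triv (fun τ => by rw [h0, map_zero])
  · by_cases hx : x = 0
    · apply triv
      intro τ
      have hy : y = 0 := by
        have h1 : y ^ 2 = 0 := by rw [hxy, hx]; ring
        exact pow_eq_zero_iff two_ne_zero |>.1 h1
      obtain ⟨c0, hc0⟩ := ker_tt k2 hD P (Or.inr (by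
        subst hx
        subst hy
        exact ⟨_, hPxy⟩))
      rw [hc0, act_tt _ k2 k2 hD]
    · set d := algebraMap F (AlgebraicClosure K) D with hddef
      have hτd : ∀ (τ : Gal K) (z : F), τ (algebraMap F (AlgebraicClosure K) z) = algebraMap F (AlgebraicClosure K) z := by
        intro τ z
        rw [htower, τ.commutes]
      have key2 : ∀ τ : Gal K, ∃ c : ZMod 2, τ (be W x y) = (-1) ^ c.val * be W x y ∧
          τ (dl W x y) = (-1) ^ c.val * dl W x y ∧ τ (ι s) = (-1) ^ c.val * ι s := by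
        intro τ
        obtain ⟨c, hc1, hc2⟩ := key τ
        obtain ⟨x', y', h', hx', e1, e2, e3⟩ := iter k2 hD hW hx hxy c.val
        obtain ⟨h'', e4⟩ := act_mk (τ.toAlgHom.restrictScalars F) k2 k2 hD hxy
        rw [hPxy, e4] at hc1
        have e5 := mkP_inj (hc1.trans e1)
        have e6 : τ (be W x y) = be W (τ x) (τ y) := by
          unfold be
          rw [map_div₀, map_mul, map_add, map_one, hτd τ w]
        refine ⟨c, ?_, ?_, hc2⟩
        · rw [← e2, ← e5.1, ← e5.2]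
          exact e6
        · rw [← e3, ← e5.1, ← e5.2]
          show τ (dl W x y) = dl W (τ x) (τ y)
          unfold dl
          rw [map_add, map_pow, map_mul, hτd τ w, e6]
      have hne : ∀ n : ℕ, ((-1 : AlgebraicClosure K)) ^ n ≠ 0 := fun n => pow_ne_zero n (neg_ne_zero.2 one_ne_zero)
      have h1 : be W x y / ι s ∈ Set.range (algebraMap K (AlgebraicClosure K)) := by
        rw [InfiniteGalois.mem_range_algebraMap_iff_fixed]
        intro τ
        obtain ⟨c, hc1, hc2, hc3⟩ := key2 τ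
        rw [map_div₀, hc1, hc3, mul_div_mul_left _ _ (hne _)]
      have h3 : dl W x y / ι s ∈ Set.range (algebraMap K (AlgebraicClosure K)) := by
        rw [InfiniteGalois.mem_range_algebraMap_iff_fixed]
        intro τ
        obtain ⟨c, hc1, hc2, hc3⟩ := key2 τ
        rw [map_div₀, hc2, hc3, mul_div_mul_left _ _ (hne _)]
      obtain ⟨u, hu⟩ := h1
      obtain ⟨v, hv⟩ := h3
      refine ⟨u, v, 1, Or.inr (Or.inr one_ne_zero), ?_⟩
      apply (algebraMap K (AlgebraicClosure K)).injective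
      rw [map_mul, map_add, map_mul, map_mul, map_pow, map_pow, map_pow, map_pow, hu, hv, map_one, ← htower, ← htower,
        ← hι2, ← hddef]
      have hdg := dl_sq k2 hW hx hxy
      have e7 : ι s ^ 2 * (dl W x y / ι s) ^ 2 = dl W x y ^ 2 := by
        field_simp
      have e8 : (ι s ^ 2) ^ 2 * (be W x y / ι s) ^ 4 = be W x y ^ 4 := by
        field_simp
      rw [e7, e8, hdg]
      ring

/-- the last part of the proof -/
theorem cob_of_pow {F : Type} [Field F] [NumberField F] {w D : F} (hw : w ^ 2 = -1) (hD : D ≠ 0)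
    (h2 : (2 : AlgebraicClosure F) ≠ 0) (g : Coch (EQ D)) (h : Gal F → ZMod 2)
    (hh : ∀ σ, g σ = tt D h2 hD (h σ)) {s : AlgebraicClosure F} {a : F} (hs0 : s ≠ 0)
    (hs2 : s ^ 2 = algebraMap F _ a)
    (hs : ∀ σ : Gal F, σ s = (-1) ^ (h σ).val * s)
    (j : ℕ) (hp : IsPow 2 (a * D ^ j)) : Cob2 D g := by
  set I := algebraMap F (AlgebraicClosure F) w with hIdef
  have hI : I ^ 2 = -1 := by
    rw [hIdef, ← map_pow, hw, map_neg, map_one]
  have hI0 : I ≠ 0 := by
    intro h0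
    rw [h0] at hI
    have : (1 : AlgebraicClosure F) = 0 := by linear_combination hI
    exact one_ne_zero this
  have hfixI : ∀ σ : Gal F, σ I = I := fun σ => σ.commutes w
  obtain ⟨c, hc⟩ := hp
  obtain ⟨β, hβ⟩ := IsAlgClosed.exists_pow_nat_eq (algebraMap F (AlgebraicClosure F) D) (n := 2) (by norm_num)
  set d := algebraMap F (AlgebraicClosure F) D with hddef
  have hd : d ≠ 0 := (map_ne_zero _).2 hD
  have hβ0 : β ≠ 0 := by
    intro h0
    rw [h0] at hβ
    apply hd
    rw [← hβ]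
    ring
  have hR : (0 : AlgebraicClosure F) ^ 2 = (I * β) ^ 3 + d * (I * β) := by
    rw [← hβ]
    linear_combination -(I * β ^ 3) * hI
  have h2R : (2 : ℕ) • (mkP h2 hD (I * β) 0 hR : Pt (EQ D) (AlgebraicClosure F)) = 0 := by
    rw [two_nsmul]
    exact self_add h2 hD hR
  have hRT : ∀ k : ℕ, ∃ h', mkP h2 hD (I * β) 0 hR + k • TT D h2 hD =
      (mkP h2 hD ((-1) ^ k * (I * β)) 0 h' : Pt (EQ D) (AlgebraicClosure F)) := by
    intro k
    induction k with
    | zero =>
      rw [zero_nsmul, add_zero]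
      exact mkP_congr (by ring) rfl
    | succ k ih =>
      obtain ⟨h', e⟩ := ih
      have hx : (-1) ^ k * (I * β) ≠ 0 := mul_ne_zero (pow_ne_zero _ (neg_ne_zero.2 one_ne_zero)) (mul_ne_zero hI0 hβ0)
      obtain ⟨h'', e'⟩ := add_T h2 hD h' hx (by ring)
      rw [succ_nsmul, ← add_assoc, e]
      have hsq : ((-1 : AlgebraicClosure F) ^ k) ^ 2 = 1 := by
        rw [← pow_mul, mul_comm, pow_mul, neg_one_sq, one_pow]
      obtain ⟨h5, e5⟩ := mkP_congr (h2 := h2) (hD := hD) (h := h'')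
        (show d / ((-1) ^ k * (I * β)) = (-1) ^ (k + 1) * (I * β) by
          rw [div_eq_iff hx, ← hβ]
          rw [pow_succ]
          linear_combination (-β ^ 2) * hsq * I ^ 2 * (-1) + β ^ 2 * hI)
        (show -d * 0 / ((-1) ^ k * (I * β)) ^ 2 = 0 by
          rw [mul_zero, zero_div])
      exact ⟨h5, e'.trans e5⟩
  refine ⟨j • mkP h2 hD (I * β) 0 hR, ?_, ?_⟩
  · rw [smul_comm, h2R, nsmul_zero]
  · intro σ
    obtain ⟨b, hb⟩ := sq_eq (x := σ β) (y := β) (by rw [← map_pow, hβ]; exact σ.commutes D)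
    have e1 : act (EQ D) σ.toAlgHom (mkP h2 hD (I * β) 0 hR) = mkP h2 hD (I * β) 0 hR + b • TT D h2 hD := by
      obtain ⟨h', e'⟩ := act_mk σ.toAlgHom h2 h2 hD hR
      obtain ⟨h'', e''⟩ := hRT b
      rw [e', e'']
      refine (mkP_congr ?_ ?_).choose_spec
      · show σ (I * β) = _
        rw [map_mul, hfixI σ, hb]
        ring
      · show σ 0 = _
        rw [map_zero]
    have hsc : (s * β ^ j) ^ 2 = (algebraMap F (AlgebraicClosure F) c) ^ 2 := by
      rw [mul_pow, hs2, ← pow_mul, mul_comm j 2, pow_mul, hβ, hddef, ← map_pow, ← map_mul, hc, map_pow]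
    obtain ⟨i, hi⟩ := sq_eq hsc
    have h5 : σ (s * β ^ j) = s * β ^ j := by
      rw [hi, map_mul, map_pow, map_neg, map_one, σ.commutes]
    rw [map_mul, map_pow, hs σ, hb] at h5
    have h6 : s * β ^ j ≠ 0 := mul_ne_zero hs0 (pow_ne_zero _ hβ0)
    have h7 : (-1 : AlgebraicClosure F) ^ ((h σ).val + b * j) = 1 := by
      apply mul_right_cancel₀ h6
      rw [one_mul]
      rw [pow_add, pow_mul]
      linear_combination h5
    have e2 : ((h σ).val + b * j : ℕ) = (0 : ZMod 2) := by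
      rw [ZMod.natCast_eq_zero_iff]
      by_contra hodd
      rw [Nat.two_dvd_ne_zero] at hodd
      rw [(Nat.odd_iff.2 hodd).neg_one_pow] at h7
      apply h2
      linear_combination -h7
    rw [map_nsmul, e1, nsmul_add, add_sub_cancel_left, hh σ]
    rw [← mul_nsmul, ← tt_nat]
    congr 1
    push_cast
    rw [Nat.cast_add, ZMod.natCast_zmod_val] at e2
    push_cast at e2
    have h20 : (2 : ZMod 2) = 0 := rfl
    linear_combination e2 - (b : ZMod 2) * j * h20

/-- the Kummer data of a locally trivial cocycle with values in `{0, T}` -/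
theorem kum_data {F : Type} [Field F] [NumberField F] {w D : F} (hw : w ^ 2 = -1) (hD : D ≠ 0)
    (h2 : (2 : AlgebraicClosure F) ≠ 0) (f : Coch (EQ D)) (hf : TCoc2 D f) :
    ∃ (h : Gal F → ZMod 2) (s : AlgebraicClosure F) (a : F), (∀ σ, f σ = tt D h2 hD (h σ)) ∧ s ≠ 0 ∧
      s ^ 2 = algebraMap F _ a ∧
      (∀ σ : Gal F, σ s = (-1) ^ (h σ).val * s) ∧
      ∀ v : HeightOneSpectrum (𝓞 F), AQ v D a := by
  obtain ⟨hf, hker⟩ := hf
  have hex : ∀ σ, ∃ c : ZMod 2, f σ = tt D h2 hD c := fun σ => ker_tt h2 hD _ (hker σ)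
  choose h hh using hex
  have hcont : IsLocallyConstant h := by
    classical
    have e : h = (fun P : Pt (EQ D) (AlgebraicClosure F) =>
        if hx : ∃ c : ZMod 2, P = tt D h2 hD c then hx.choose else 0) ∘ f := by
      ext1 σ
      show h σ = if hx : ∃ c : ZMod 2, f σ = tt D h2 hD c then hx.choose else 0
      have hx : ∃ c : ZMod 2, f σ = tt D h2 hD c := ⟨h σ, hh σ⟩
      rw [dif_pos hx]
      exact tt_inj h2 hD ((hh σ).symm.trans hx.choose_spec)
    rw [e]
    exact hf.1.1.comp _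
  have hmul : ∀ σ τ, h (σ * τ) = h σ + h τ := by
    intro σ τ
    apply tt_inj (L := AlgebraicClosure F) h2 hD
    rw [← hh, hf.1.2, hh σ, hh τ, act_tt _ h2 h2 hD, tt_add]
  obtain ⟨s, a, hs0, hs2, hs⟩ := exists_root2 (K := F) (Ω := AlgebraicClosure F) h hmul hcont
  have ha0 : a ≠ 0 := by
    intro h0
    rw [h0, map_zero] at hs2
    exact hs0 (pow_eq_zero_iff (two_ne_zero) |>.1 hs2)
  refine ⟨h, s, a, hh, hs0, hs2, hs, ?_⟩
  intro v
  refine ⟨ha0, ?_⟩
  have : CharZero (v.adicCompletion F) := charZero_of_injective_algebraMap (algebraMap F _).injective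
  exact local_AQ hD (v.adicCompletion F) f h2 h hh (hf.2.1 v) hw hs0 hs2 hs

/-- **JOB QKUM** -/
theorem qkum : S_QKUM := by
  intro F _ _ w D hw hD n f hf
  have h2 : (2 : AlgebraicClosure F) ≠ 0 := two_ne_zero
  have hdata := fun i => kum_data hw hD h2 (f i) (hf i)
  choose h s a hh hs0 hs2 hs hA using hdata
  refine ⟨a, hA, fun i j hp => cob_of_pow hw hD h2 (f i) (h i) (hh i) (hs0 i) (hs2 i) (hs i) j hp, ?_⟩
  intro i i' j hp
  refine cob_of_pow hw hD h2 (f i - f i') (fun σ => h i σ - h i' σ) ?_ (s := s i / s i') (a := a i / a i')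
    (div_ne_zero (hs0 i) (hs0 i')) ?_ ?_ j hp
  · intro σ
    rw [tt_sub, ← hh i σ, ← hh i' σ]
    rfl
  · rw [div_pow, hs2 i, hs2 i', map_div₀]
  · intro σ
    rw [map_div₀, hs i σ, hs i' σ]
    have hne : ∀ n : ℕ, ((-1 : AlgebraicClosure F)) ^ n ≠ 0 := fun n => pow_ne_zero n (neg_ne_zero.2 one_ne_zero)
    have e : ((-1 : AlgebraicClosure F)) ^ (h i σ).val = (-1) ^ (h i σ - h i' σ).val * (-1) ^ (h i' σ).val := by
      rw [← pow_add]
      have hm : (h i σ).val ≡ (h i σ - h i' σ).val + (h i' σ).val [MOD 2] := by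
        rw [← ZMod.natCast_eq_natCast_iff]
        push_cast
        rw [ZMod.natCast_zmod_val, ZMod.natCast_zmod_val, ZMod.natCast_zmod_val]
        ring
      rw [pow_eq_pow_mod _ neg_one_sq, hm, ← pow_eq_pow_mod _ neg_one_sq]
    have h1 := hs0 i'
    have h3 := hne (h i' σ).val
    rw [e]
    field_simp

end Pool.Agent.Q193.EN
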