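import Pool.Agent.Q283.EN.Stm2

/-!
# Project EN of helper283, job QKUM, first part: the points `P + k T` of `y² = x³ + D x`
-/

set_option autoImplicit false
set_option linter.unusedSimpArgs false

namespace Pool.Agent.Q193.EN

open WeierstrassCurve
open Pool.Agent.Q283.EN (EQ)
open Pool.Agent.TH841.SH.D (Coch Pt act Gal IsCoc IsCob LocTriv)

section

variable {F : Type} [Field F] {D : F} {L : Type} [Field L] [Algebra F L]

theorem eqn_iff (x y : L) : ((EQ D).baseChange L).toAffine.Equation x y ↔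
    y ^ 2 = x ^ 3 + algebraMap F L D * x := by
  rw [Affine.equation_iff]
  simp [EQ, WeierstrassCurve.baseChange]

theorem nons_iff (h2 : (2 : L) ≠ 0) (hD : D ≠ 0) (x y : L) : ((EQ D).baseChange L).toAffine.Nonsingular x y ↔
    y ^ 2 = x ^ 3 + algebraMap F L D * x := by
  rw [Affine.nonsingular_iff, eqn_iff]
  constructor
  · exact fun h => h.1
  · intro h
    refine ⟨h, ?_⟩
    have hd : algebraMap F L D ≠ 0 := (map_ne_zero _).2 hD
    simp only [EQ, WeierstrassCurve.baseChange, map_a₁, map_a₂, map_a₃, map_a₄, map_zero, zero_mul, mul_zero, add_zero, sub_zero]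
    by_contra hc
    push Not at hc
    obtain ⟨h1, h3⟩ := hc
    have hy : y = 0 := by
      have h4 : 2 * y = 0 := by linear_combination h3
      exact (mul_eq_zero.1 h4).resolve_left h2
    rw [hy] at h
    have h5 : x * (x ^ 2 + algebraMap F L D) = 0 := by linear_combination -h
    rcases mul_eq_zero.1 h5 with h6 | h6
    · rw [h6] at h1
      apply hd
      linear_combination -h1
    · have h7 : 2 * x ^ 2 = 0 := by linear_combination -h1 - h6
      have h8 : x ^ 2 = 0 := (mul_eq_zero.1 h7).resolve_left h2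
      apply hd
      linear_combination h6 - h8

/-- the point `(x, y)` -/
def mkP (h2 : (2 : L) ≠ 0) (hD : D ≠ 0) (x y : L) (h : y ^ 2 = x ^ 3 + algebraMap F L D * x) : Pt (EQ D) L :=
  Affine.Point.some x y ((nons_iff h2 hD x y).2 h)

theorem mkP_inj {h2 : (2 : L) ≠ 0} {hD : D ≠ 0} {x y x' y' : L} {h h'} (e : mkP h2 hD x y h = mkP h2 hD x' y' h') :
    x = x' ∧ y = y' := by
  unfold mkP at e
  exact ⟨(Affine.Point.some.inj e).1, (Affine.Point.some.inj e).2⟩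

theorem mkP_congr {h2 : (2 : L) ≠ 0} {hD : D ≠ 0} {x y x' y' : L} {h} (hx : x = x') (hy : y = y') :
    ∃ h', mkP h2 hD x y h = mkP h2 hD x' y' h' := by
  subst hx
  subst hy
  exact ⟨h, rfl⟩

theorem add_mk (h2 : (2 : L) ≠ 0) (hD : D ≠ 0) {x y : L} (h : y ^ 2 = x ^ 3 + algebraMap F L D * x)
    (hx : x ≠ 0) (h0 : (0 : L) ^ 2 = 0 ^ 3 + algebraMap F L D * 0)
    (h' : (-(algebraMap F L D) * y / x ^ 2) ^ 2 = (algebraMap F L D / x) ^ 3 +
      algebraMap F L D * (algebraMap F L D / x)) :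
    mkP h2 hD x y h + mkP h2 hD 0 0 h0 = mkP h2 hD _ _ h' := by
  let _ := Classical.decEq L
  refine (Affine.Point.add_of_X_ne hx).trans ?_
  unfold mkP
  rw [Affine.Point.some.injEq]
  rw [Affine.slope_of_X_ne hx]
  simp only [Affine.addX, Affine.addY, Affine.negY, Affine.negAddY, EQ, WeierstrassCurve.baseChange, map_a₁, map_a₂, map_a₃, map_a₄, map_zero, zero_mul, mul_zero, add_zero, sub_zero]
  constructor
  · field_simp
    linear_combination h
  · field_simp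
    linear_combination (-y) * h

theorem add_T (h2 : (2 : L) ≠ 0) (hD : D ≠ 0) {x y : L} (h : y ^ 2 = x ^ 3 + algebraMap F L D * x)
    (hx : x ≠ 0) (h0 : (0 : L) ^ 2 = 0 ^ 3 + algebraMap F L D * 0) :
    ∃ h', mkP h2 hD x y h + mkP h2 hD 0 0 h0 =
      mkP h2 hD (algebraMap F L D / x) (-(algebraMap F L D) * y / x ^ 2) h' := by
  have h' : (-(algebraMap F L D) * y / x ^ 2) ^ 2 = (algebraMap F L D / x) ^ 3 +
      algebraMap F L D * (algebraMap F L D / x) := by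
    field_simp
    linear_combination (algebraMap F L D) ^ 2 * h
  exact ⟨h', add_mk h2 hD h hx h0 h'⟩

theorem neg_mk (h2 : (2 : L) ≠ 0) (hD : D ≠ 0) {x y : L} (h : y ^ 2 = x ^ 3 + algebraMap F L D * x) :
    ∃ h', -mkP h2 hD x y h = mkP h2 hD x (-y) h' := by
  have h' : (-y) ^ 2 = x ^ 3 + algebraMap F L D * x := by
    linear_combination h
  refine ⟨h', (Affine.Point.neg_some _).trans ?_⟩
  unfold mkP
  rw [Affine.Point.some.injEq]
  simp [Affine.negY, EQ, WeierstrassCurve.baseChange]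

/-- points with `y = 0` -/
theorem self_add (h2 : (2 : L) ≠ 0) (hD : D ≠ 0) {x : L} (h : (0 : L) ^ 2 = x ^ 3 + algebraMap F L D * x) :
    mkP h2 hD x 0 h + mkP h2 hD x 0 h = 0 := by
  obtain ⟨h', e⟩ := neg_mk h2 hD h
  have e2 : -mkP h2 hD x 0 h = mkP h2 hD x 0 h := by
    rw [e]
    exact (mkP_congr rfl neg_zero).choose_spec
  exact neg_eq_iff_add_eq_zero.1 e2

variable (D) in
/-- the point `T = (0, 0)` -/
def TT (h2 : (2 : L) ≠ 0) (hD : D ≠ 0) : Pt (EQ D) L := mkP h2 hD 0 0 (by ring)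

theorem two_T (h2 : (2 : L) ≠ 0) (hD : D ≠ 0) : (2 : ℕ) • (TT D h2 hD : Pt (EQ D) L) = 0 := by
  rw [two_nsmul]
  exact self_add h2 hD _

theorem T_ne (h2 : (2 : L) ≠ 0) (hD : D ≠ 0) : (TT D h2 hD : Pt (EQ D) L) ≠ 0 :=
  Affine.Point.some_ne_zero _

variable (D) in
/-- the multiples of `T` -/
noncomputable def tt (h2 : (2 : L) ≠ 0) (hD : D ≠ 0) (c : ZMod 2) : Pt (EQ D) L := c.val • TT D h2 hD

theorem mod_T (h2 : (2 : L) ≠ 0) (hD : D ≠ 0) (n : ℕ) :
    n • (TT D h2 hD : Pt (EQ D) L) = (n % 2) • TT D h2 hD := by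
  conv_lhs => rw [← Nat.div_add_mod n 2]
  rw [add_nsmul, mul_nsmul, two_T, nsmul_zero, zero_add]

theorem tt_nat (h2 : (2 : L) ≠ 0) (hD : D ≠ 0) (n : ℕ) :
    (tt D h2 hD (n : ZMod 2) : Pt (EQ D) L) = n • TT D h2 hD := by
  rw [tt, ZMod.val_natCast, ← mod_T]

theorem tt_add (h2 : (2 : L) ≠ 0) (hD : D ≠ 0) (c c' : ZMod 2) :
    (tt D h2 hD (c + c') : Pt (EQ D) L) = tt D h2 hD c + tt D h2 hD c' := by
  rw [tt, tt, tt, ← add_nsmul, ZMod.val_add, ← mod_T]

theorem tt_eq_zero (h2 : (2 : L) ≠ 0) (hD : D ≠ 0) (c : ZMod 2) (h : (tt D h2 hD c : Pt (EQ D) L) = 0) : c = 0 := by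
  have h1 : c.val = 0 ∨ c.val = 1 := by
    have := ZMod.val_lt c
    omega
  rw [tt] at h
  rcases h1 with h1 | h1
  · exact (ZMod.val_eq_zero c).1 h1
  · rw [h1, one_nsmul] at h
    exact absurd h (T_ne h2 hD)

theorem tt_inj (h2 : (2 : L) ≠ 0) (hD : D ≠ 0) {c c' : ZMod 2}
    (h : (tt D h2 hD c : Pt (EQ D) L) = tt D h2 hD c') : c = c' := by
  have h1 := tt_add (L := L) h2 hD (c - c') c'
  rw [sub_add_cancel, h] at h1
  exact sub_eq_zero.1 (tt_eq_zero h2 hD _ (by simpa using h1.symm))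

theorem tt_sub (h2 : (2 : L) ≠ 0) (hD : D ≠ 0)
    (c c' : ZMod 2) : (tt D h2 hD (c - c') : Pt (EQ D) L) = tt D h2 hD c - tt D h2 hD c' := by
  have h := tt_add (L := L) h2 hD (c - c') c'
  rw [sub_add_cancel] at h
  rw [h, add_sub_cancel_right]

/-- the functions `β` and `δ` -/
def be (w x y : L) : L := y / ((1 + w) * x)

/-- the function `δ` -/
def dl (w x y : L) : L := be w x y ^ 2 + w * x

theorem w_ne {w : L} (h2 : (2 : L) ≠ 0) (hw : w ^ 2 = -1) : 1 + w ≠ 0 := by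
  intro h1
  apply h2
  linear_combination (1 - w) * h1 + hw

theorem be_T {d w x y : L} (h2 : (2 : L) ≠ 0) (hd : d ≠ 0) (hw : w ^ 2 = -1) (hx : x ≠ 0) :
    be w (d / x) (-d * y / x ^ 2) = -be w x y := by
  have h1 := w_ne h2 hw
  unfold be
  field_simp

theorem be_sq {d w x y : L} (h2 : (2 : L) ≠ 0) (hw : w ^ 2 = -1) (hx : x ≠ 0)
    (h : y ^ 2 = x ^ 3 + d * x) : 2 * w * x * be w x y ^ 2 = x ^ 2 + d := by
  have h1 := w_ne h2 hw
  unfold be
  rw [div_pow, mul_pow]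
  have h3 : (1 + w) ^ 2 = 2 * w := by linear_combination hw
  have hw0 : w ≠ 0 := by
    rintro rfl
    have : (1 : L) = 0 := by linear_combination hw
    exact one_ne_zero this
  rw [h3, h]
  field_simp

theorem dl_T {d w x y : L} (h2 : (2 : L) ≠ 0) (hd : d ≠ 0) (hw : w ^ 2 = -1) (hx : x ≠ 0)
    (h : y ^ 2 = x ^ 3 + d * x) : dl w (d / x) (-d * y / x ^ 2) = -dl w x y := by
  unfold dl
  rw [be_T h2 hd hw hx, neg_sq]
  have h3 := be_sq h2 hw hx h
  have hw0 : w ≠ 0 := by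
    rintro rfl
    have : (1 : L) = 0 := by linear_combination hw
    exact one_ne_zero this
  apply mul_left_cancel₀ (mul_ne_zero hw0 hx)
  have hdx : x * (d / x) = d := mul_div_cancel₀ d hx
  linear_combination h3 + w ^ 2 * hdx + (x ^ 2 + d) * hw

theorem dl_sq {d w x y : L} (h2 : (2 : L) ≠ 0) (hw : w ^ 2 = -1) (hx : x ≠ 0)
    (h : y ^ 2 = x ^ 3 + d * x) : dl w x y ^ 2 = be w x y ^ 4 + d := by
  have h3 := be_sq h2 hw hx h
  unfold dl
  linear_combination h3 + x ^ 2 * hw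

theorem iter (h2 : (2 : L) ≠ 0) (hD : D ≠ 0) {w x y : L} (hw : w ^ 2 = -1) (hx : x ≠ 0)
    (h : y ^ 2 = x ^ 3 + algebraMap F L D * x) (k : ℕ) : ∃ x' y' h', x' ≠ 0 ∧
      mkP h2 hD x y h + k • TT D h2 hD = mkP h2 hD x' y' h' ∧
      be w x' y' = (-1) ^ k * be w x y ∧ dl w x' y' = (-1) ^ k * dl w x y := by
  have hd : algebraMap F L D ≠ 0 := (map_ne_zero _).2 hD
  induction k with
  | zero => exact ⟨x, y, h, hx, by rw [zero_nsmul, add_zero], by ring, by ring⟩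
  | succ k ih =>
    obtain ⟨x', y', h', hx', e1, e2, e3⟩ := ih
    obtain ⟨h'', e4⟩ := add_T h2 hD h' hx' (by ring)
    refine ⟨_, _, h'', ?_, ?_, ?_, ?_⟩
    · exact div_ne_zero hd hx'
    · rw [succ_nsmul, ← add_assoc, e1, ← e4]
      rfl
    · rw [be_T h2 hd hw hx', e2]
      ring
    · rw [dl_T h2 hd hw hx' h', e3]
      ring

section act

variable {L' : Type} [Field L'] [Algebra F L']

theorem act_mk (φ : L →ₐ[F] L') (h2 : (2 : L) ≠ 0) (h2' : (2 : L') ≠ 0) (hD : D ≠ 0) {x y : L}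
    (h : y ^ 2 = x ^ 3 + algebraMap F L D * x) :
    ∃ h', act (EQ D) φ (mkP h2 hD x y h) = mkP h2' hD (φ x) (φ y) h' := by
  have h' : φ y ^ 2 = φ x ^ 3 + algebraMap F L' D * φ x := by
    rw [← map_pow, ← map_pow, ← φ.commutes, ← map_mul, ← map_add, h]
  refine ⟨h', ?_⟩
  rfl

theorem act_TT (φ : L →ₐ[F] L') (h2 : (2 : L) ≠ 0) (h2' : (2 : L') ≠ 0) (hD : D ≠ 0) :
    act (EQ D) φ (TT D h2 hD) = TT D h2' hD := by
  obtain ⟨h', e⟩ := act_mk φ h2 h2' hD (show (0 : L) ^ 2 = 0 ^ 3 + algebraMap F L D * 0 by ring)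
  unfold TT
  rw [e]
  exact (mkP_congr (map_zero _) (map_zero _)).choose_spec

theorem act_tt (φ : L →ₐ[F] L') (h2 : (2 : L) ≠ 0) (h2' : (2 : L') ≠ 0) (hD : D ≠ 0) (c : ZMod 2) :
    act (EQ D) φ (tt D h2 hD c) = tt D h2' hD c := by
  unfold tt
  rw [map_nsmul, act_TT φ h2 h2' hD]

end act

/-- the points `0` and `(0, 0)` are multiples of `T` -/
theorem ker_tt (h2 : (2 : L) ≠ 0) (hD : D ≠ 0) (P : Pt (EQ D) L)
    (h : P = 0 ∨ ∃ h, P = Affine.Point.some 0 0 h) : ∃ c, P = tt D h2 hD c := by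
  rcases h with h | ⟨h, e⟩
  · exact ⟨0, by rw [h]; unfold tt; rw [ZMod.val_zero, zero_nsmul]⟩
  · refine ⟨1, ?_⟩
    rw [e]
    unfold tt
    rw [show (1 : ZMod 2).val = 1 from rfl, one_nsmul]
    rfl

/-- a point is `0`, or `(x, y)` -/
theorem pt_cases (h2 : (2 : L) ≠ 0) (hD : D ≠ 0) (P : Pt (EQ D) L) :
    P = 0 ∨ ∃ x y h, P = mkP h2 hD x y h := by
  match P with
  | Affine.Point.zero => exact Or.inl rfl
  | Affine.Point.some x y h => exact Or.inr ⟨x, y, (nons_iff h2 hD x y).1 h, rfl⟩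

end

end Pool.Agent.Q193.EN
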